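import Mathlib

set_option autoImplicit false

/-!
# A gap in the sizes of flat maximal antichains

For `n = 7`, `l = 3` the least size of a maximal antichain in the levels 3 and 4 is 14 (the lines of
the Fano plane and their complements), and the size 15 does not occur, although `T(7,3) = 29`.
-/

namespace Pool.Agent.Results.MP_6c6cee_co.GapAboveMinimum

open Finset

/-- `𝒜` is a maximal antichain in the Boolean lattice `B_n` of all subsets of an `n`-set: no member
is a proper subset of another one, and no further set can be added. -/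
def IsMaxAntichain (n : ℕ) (𝒜 : Finset (Finset (Fin n))) : Prop :=
  (∀ A ∈ 𝒜, ∀ B ∈ 𝒜, ¬ A ⊂ B) ∧
  ∀ X : Finset (Fin n), X ∉ 𝒜 → ∃ A ∈ 𝒜, A ⊂ X ∨ X ⊂ A

/-- `S(n,l)`: the set of sizes of the maximal antichains of `B_n` all of whose members have size
`l` or `l + 1`. -/
def S (n l : ℕ) : Set ℕ :=
  {m | ∃ 𝒜 : Finset (Finset (Fin n)), (∀ A ∈ 𝒜, A.card = l ∨ A.card = l + 1) ∧
    IsMaxAntichain n 𝒜 ∧ 𝒜.card = m}

/-- `T(n,l) = C(n,l+1) - (n-l-1) ⌈(n-l)/2⌉`. -/
def T (n l : ℕ) : ℤ :=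
  (n.choose (l + 1) : ℤ) - ((n : ℤ) - l - 1) * ⌈((n : ℚ) - l) / 2⌉

/-! ## Counting -/

lemma sum_one {α β : Type*} (s : Finset α) (t : Finset β) (R : α → β → Prop)
    [∀ a b, Decidable (R a b)] :
    ∑ b ∈ t, (s.filter (fun a => R a b)).card = ∑ a ∈ s, (t.filter (fun b => R a b)).card := by
  simp_rw [card_filter]
  exact sum_comm

lemma sum_sq {α β : Type*} (s : Finset α) (t : Finset β) (R : α → β → Prop)
    [∀ a b, Decidable (R a b)] :
    ∑ b ∈ t, (s.filter (fun a => R a b)).card ^ 2 =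
      ∑ a ∈ s, ∑ a' ∈ s, (t.filter (fun b => R a b ∧ R a' b)).card := by
  have h : ∀ b, (s.filter (fun a => R a b)).card ^ 2 =
      ∑ a ∈ s, ∑ a' ∈ s, if R a b ∧ R a' b then 1 else 0 := by
    intro b
    rw [card_filter, sq, sum_mul_sum]
    refine sum_congr rfl fun a _ => sum_congr rfl fun a' _ => ?_
    by_cases h1 : R a b <;> by_cases h2 : R a' b <;> simp [h1, h2]
  simp_rw [h, card_filter]
  rw [sum_comm]
  refine sum_congr rfl fun a _ => ?_
  rw [sum_comm]

/-- a symmetric integer matrix with zero diagonal, even row sums and square sum four -/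
lemma core (u : Fin 7 → Fin 7 → ℤ) (hs : ∀ x y, u x y = u y x) (hd : ∀ x, u x x = 0)
    (hr : ∀ x, Even (∑ y, u x y)) (ht : ∑ x, ∑ y, (u x y) ^ 2 = 4) : False := by
  set s : Fin 7 → ℤ := fun x => ∑ y, (u x y) ^ 2 with hsdef
  have hs0 : ∀ x, 0 ≤ s x := fun x => sum_nonneg fun y _ => sq_nonneg _
  have hev : ∀ x, Even (s x) := by
    intro x
    have h1 : s x = ∑ y, u x y + ∑ y, (u x y * (u x y - 1)) := by
      rw [← sum_add_distrib]
      exact sum_congr rfl fun y _ => by ring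
    rw [h1]
    refine (hr x).add ?_
    refine Finset.even_sum _ fun y _ => ?_
    have := Int.even_mul_pred_self (u x y)
    exact this
  have hge : ∀ x y, (u x y) ^ 2 ≤ s x := fun x y =>
    single_le_sum (f := fun y => (u x y) ^ 2) (fun z _ => sq_nonneg _) (mem_univ y)
  have hpos : ∀ x, s x ≠ 0 → 2 ≤ s x := by
    intro x hx
    obtain ⟨k, hk⟩ := hev x
    have := hs0 x
    omega
  obtain ⟨x, hx⟩ : ∃ x, s x ≠ 0 := by
    by_contra hcon
    push Not at hcon
    have : ∑ x, s x = 0 := sum_eq_zero fun x _ => hcon x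
    have h4 : ∑ x, s x = 4 := ht
    omega
  obtain ⟨y, hy⟩ : ∃ y, u x y ≠ 0 := by
    by_contra hcon
    push Not at hcon
    exact hx (sum_eq_zero fun y _ => by rw [hcon y]; ring)
  have hxy : x ≠ y := fun h => hy (by rw [← h]; exact hd x)
  have hsy : s y ≠ 0 := by
    have h1 := hge y x
    have h2 : 0 < (u y x) ^ 2 := by
      rw [← hs x y]
      positivity
    omega
  have hx2 := hpos x hx
  have hy2 := hpos y hsy
  have hle2 : s x + s y ≤ 4 := by
    have h1 : ∑ z ∈ ({x, y} : Finset (Fin 7)), s z ≤ ∑ z, s z :=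
      sum_le_univ_sum_of_nonneg (fun z => hs0 z)
    rw [sum_pair hxy] at h1
    have h4 : ∑ x, s x = 4 := ht
    omega
  have hz : ∀ z, z ≠ x → z ≠ y → s z = 0 := by
    intro z hzx hzy
    have h1 : ∑ w ∈ ({x, y, z} : Finset (Fin 7)), s w ≤ ∑ w, s w :=
      sum_le_univ_sum_of_nonneg (fun z => hs0 z)
    rw [sum_insert (by simp [hxy, hzx.symm]), sum_pair hzy.symm] at h1
    have h4 : ∑ x, s x = 4 := ht
    have := hs0 z
    omega
  have hsx : s x = (u x y) ^ 2 := by
    refine sum_eq_single y ?_ (by simp)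
    intro z _ hzy
    by_cases hzx : z = x
    · rw [hzx, hd x]; ring
    · have h1 := hge z x
      rw [hz z hzx hzy, ← hs x z] at h1
      have := sq_nonneg (u x z)
      omega
  have h2 : (u x y) ^ 2 = 2 := by omega
  have h3 : u x y ≤ 1 := by nlinarith
  have h4 : -1 ≤ u x y := by nlinarith
  obtain h5 | h5 | h5 : u x y = -1 ∨ u x y = 0 ∨ u x y = 1 := by omega
  all_goals rw [h5] at h2; norm_num at h2

/-- a symmetric matrix of natural numbers with zero diagonal, even row sums, sum 42 and square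
sum 46 -/
lemma core2 (c : Fin 7 × Fin 7 → ℕ) (c0 : ∀ x, c (x, x) = 0) (cs : ∀ x y, c (x, y) = c (y, x))
    (ce : ∀ x, Even (∑ y, c (x, y))) (e3 : ∑ p, c p ^ 2 = 46) (e4 : ∑ p, c p = 42) : False := by
  have d0 : ∀ x : Fin 7, (if x = x then (0 : ℤ) else 1) = 0 := fun x => if_pos rfl
  refine core (fun x y => (c (x, y) : ℤ) - (if x = y then 0 else 1)) ?_ ?_ ?_ ?_
  · intro x y
    have h : (if x = y then (0 : ℤ) else 1) = (if y = x then 0 else 1) := by
      by_cases h : x = y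
      · rw [if_pos h, if_pos h.symm]
      · rw [if_neg h, if_neg (Ne.symm h)]
    show (c (x, y) : ℤ) - (if x = y then 0 else 1) = (c (y, x) : ℤ) - (if y = x then 0 else 1)
    rw [cs x y, h]
  · intro x
    show (c (x, x) : ℤ) - (if x = x then 0 else 1) = 0
    rw [c0 x, d0 x]
    rfl
  · intro x
    show Even (∑ y, ((c (x, y) : ℤ) - (if x = y then 0 else 1)))
    rw [sum_sub_distrib]
    have h5 : ∀ x : Fin 7, ∑ y : Fin 7, (if x = y then (0 : ℤ) else 1) = 6 := by decide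
    rw [h5 x]
    refine Even.sub ?_ ⟨3, by norm_num⟩
    rw [← Nat.cast_sum]
    obtain ⟨k, hk⟩ := ce x
    exact ⟨k, by rw [hk]; push_cast; ring⟩
  · show ∑ x, ∑ y, ((c (x, y) : ℤ) - (if x = y then 0 else 1)) ^ 2 = 4
    have h5 : ∀ x y : Fin 7, ((c (x, y) : ℤ) - (if x = y then 0 else 1)) ^ 2 =
        (c (x, y) : ℤ) ^ 2 - 2 * (c (x, y) : ℤ) + (if x = y then 0 else 1) := by
      intro x y
      by_cases h : x = y
      · subst h
        rw [c0 x, d0 x]
        norm_num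
      · rw [if_neg h]; ring
    have h6 : ∑ x : Fin 7, ∑ y : Fin 7, (if x = y then (0 : ℤ) else 1) = 42 := by decide
    have h7 : ∑ x : Fin 7, ∑ y : Fin 7, (c (x, y) : ℤ) ^ 2 = 46 := by
      have := e3
      rw [Fintype.sum_prod_type] at this
      exact_mod_cast this
    have h8 : ∑ x : Fin 7, ∑ y : Fin 7, (c (x, y) : ℤ) = 42 := by
      have := e4
      rw [Fintype.sum_prod_type] at this
      exact_mod_cast this
    simp_rw [h5, sum_add_distrib, sum_sub_distrib, ← mul_sum]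
    rw [h6, h7, h8]
    norm_num

/-- the triples of the seven points -/
def Tr : Finset (Finset (Fin 7)) := powersetCard 3 univ

lemma card_Tr : Tr.card = 35 := by
  unfold Tr
  rw [card_powersetCard]
  rfl

set_option maxRecDepth 100000 in
lemma h4 : ∀ A ∈ Tr, (Tr.filter (fun G => Disjoint A G)).card = 4 := by decide +kernel

set_option maxRecDepth 100000 in
lemma hcount : ∀ A ∈ Tr, ∀ B ∈ Tr, (A ∩ B).offDiag.card + (if A = B then 2 else 0) =
    2 * (Tr.filter (fun G => Disjoint A G ∧ Disjoint B G)).card := by decide +kernel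

lemma card_of_mem {A : Finset (Fin 7)} (h : A ∈ Tr) : A.card = 3 := (mem_powersetCard.1 h).2

variable {P Q : Finset (Finset (Fin 7))}

/-- the counting inequality and, in the case of equality, the square sum -/
lemma ineq (hP : P ⊆ Tr) (hQ : Q ⊆ Tr) (h1 : ∀ A ∈ P, ∀ G ∈ Q, ¬ Disjoint A G)
    (h2 : ∀ G ∈ Tr, G ∉ Q → ∃ A ∈ P, Disjoint A G) :
    35 ≤ 4 * P.card + Q.card ∧ (4 * P.card + Q.card = 36 →
      ∑ G ∈ Tr, (P.filter (fun A => Disjoint A G)).card ^ 2 = 4 * P.card + 2) := by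
  have e1 : ∑ G ∈ Tr, (P.filter (fun A => Disjoint A G)).card = 4 * P.card := by
    rw [sum_one, sum_congr rfl fun A hA => h4 A (hP hA), sum_const, smul_eq_mul, mul_comm]
  have e2 : (Tr \ Q).card + Q.card = 35 := by
    rw [card_sdiff_add_card_eq_card hQ, card_Tr]
  have z : ∀ G ∈ Q, (P.filter (fun A => Disjoint A G)).card = 0 := by
    intro G hG
    rw [card_eq_zero, filter_eq_empty_iff]
    exact fun A hA => h1 A hA G hG
  have p : ∀ G ∈ Tr \ Q, 1 ≤ (P.filter (fun A => Disjoint A G)).card := by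
    intro G hG
    rw [mem_sdiff] at hG
    obtain ⟨A, hA, hAG⟩ := h2 G hG.1 hG.2
    exact card_pos.2 ⟨A, mem_filter.2 ⟨hA, hAG⟩⟩
  have e3 : ∑ G ∈ Tr \ Q, (P.filter (fun A => Disjoint A G)).card = 4 * P.card := by
    rw [← e1, ← sum_sdiff hQ, sum_eq_zero z, add_zero]
  have e4 : (Tr \ Q).card ≤ 4 * P.card := by
    rw [← e3, card_eq_sum_ones]
    exact sum_le_sum p
  refine ⟨by omega, fun h => ?_⟩
  have e5 : ∑ G ∈ Tr \ Q, ((P.filter (fun A => Disjoint A G)).card - 1) = 1 := by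
    have h6 : ∑ G ∈ Tr \ Q, ((P.filter (fun A => Disjoint A G)).card - 1) + (Tr \ Q).card =
        4 * P.card := by
      rw [← e3, card_eq_sum_ones, ← sum_add_distrib]
      exact sum_congr rfl fun G hG => Nat.sub_add_cancel (p G hG)
    omega
  have e6 : ∀ G ∈ Tr \ Q, (P.filter (fun A => Disjoint A G)).card - 1 ≤ 1 := by
    intro G hG
    exact le_of_le_of_eq (single_le_sum
      (f := fun G => (P.filter (fun A => Disjoint A G)).card - 1)
      (fun _ _ => Nat.zero_le _) hG) e5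
  have e7 : ∀ G ∈ Tr \ Q, (P.filter (fun A => Disjoint A G)).card ^ 2 =
      (P.filter (fun A => Disjoint A G)).card +
        2 * ((P.filter (fun A => Disjoint A G)).card - 1) := by
    intro G hG
    have a1 := p G hG
    have a2 := e6 G hG
    obtain h | h : (P.filter (fun A => Disjoint A G)).card = 1 ∨
        (P.filter (fun A => Disjoint A G)).card = 2 := by omega
    all_goals simp [h]
  rw [← sum_sdiff hQ, sum_eq_zero (s := Q) (fun G hG => by rw [z G hG]; rfl), add_zero,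
    sum_congr rfl e7, sum_add_distrib, e3, ← mul_sum, e5, mul_one]

/-- the case of seven and eight triples -/
lemma seven (hP : P ⊆ Tr) (hQ : Q ⊆ Tr) (h1 : ∀ A ∈ P, ∀ G ∈ Q, ¬ Disjoint A G)
    (h2 : ∀ G ∈ Tr, G ∉ Q → ∃ A ∈ P, Disjoint A G) (hp : P.card = 7) (hq : Q.card = 8) :
    False := by
  have e1 := (ineq hP hQ h1 h2).2 (by omega)
  rw [sum_sq, hp] at e1
  -- the sum over the pairs of members of the sizes of the offdiagonals
  have e2 : ∑ A ∈ P, ∑ B ∈ P, (A ∩ B).offDiag.card = 46 := by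
    have h3 : ∑ A ∈ P, ∑ B ∈ P, ((A ∩ B).offDiag.card + (if A = B then 2 else 0)) = 60 := by
      have h5 : ∑ A ∈ P, ∑ B ∈ P, ((A ∩ B).offDiag.card + (if A = B then 2 else 0)) =
          ∑ A ∈ P, ∑ B ∈ P, 2 * (Tr.filter (fun G => Disjoint A G ∧ Disjoint B G)).card :=
        sum_congr rfl fun A hA => sum_congr rfl fun B hB => hcount A (hP hA) B (hP hB)
      rw [h5]
      simp_rw [← mul_sum]
      omega
    simp_rw [sum_add_distrib] at h3
    have h5 : ∑ A ∈ P, ∑ B ∈ P, (if A = B then 2 else 0) = 14 := by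
      have h6 : ∀ A ∈ P, ∑ B ∈ P, (if A = B then 2 else 0) = 2 := by
        intro A hA
        rw [sum_ite_eq, if_pos hA]
      rw [sum_congr rfl h6, sum_const, hp]
      rfl
    omega
  set c : Fin 7 × Fin 7 → ℕ := fun p => (P.filter (fun A => p ∈ A.offDiag)).card with hc
  have e3 : ∑ p : Fin 7 × Fin 7, c p ^ 2 = 46 := by
    rw [← e2, hc, sum_sq]
    refine sum_congr rfl fun A _ => sum_congr rfl fun B _ => ?_
    congr 1
    ext p
    simp only [mem_filter, mem_univ, true_and, mem_offDiag, mem_inter]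
    tauto
  have e4 : ∑ p : Fin 7 × Fin 7, c p = 42 := by
    rw [hc, sum_one]
    have h5 : ∀ A ∈ P, (univ.filter (fun p : Fin 7 × Fin 7 => p ∈ A.offDiag)).card = 6 := by
      intro A hA
      have h6 : univ.filter (fun p : Fin 7 × Fin 7 => p ∈ A.offDiag) = A.offDiag := by
        ext p; simp
      rw [h6, offDiag_card, card_of_mem (hP hA)]
    rw [sum_congr rfl h5, sum_const, hp]
    rfl
  have c0 : ∀ x, c (x, x) = 0 := by
    intro x
    rw [hc]
    simp
  have cs : ∀ x y, c (x, y) = c (y, x) := by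
    intro x y
    refine congrArg card (filter_congr fun A _ => ?_)
    rw [mem_offDiag, mem_offDiag]
    exact ⟨fun h => ⟨h.2.1, h.1, h.2.2.symm⟩, fun h => ⟨h.2.1, h.1, h.2.2.symm⟩⟩
  refine core2 c c0 cs (fun x => ?_) e3 e4
  have h7 : ∑ y : Fin 7, c (x, y) =
      ∑ A ∈ P, (univ.filter (fun y : Fin 7 => (x, y) ∈ A.offDiag)).card := by
    rw [hc]
    exact sum_one P univ (fun A y => (x, y) ∈ A.offDiag)
  rw [h7]
  refine Finset.even_sum _ fun A hA => ?_
  by_cases hx : x ∈ A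
  · have h8 : univ.filter (fun y : Fin 7 => (x, y) ∈ A.offDiag) = A.erase x := by
      ext y
      simp only [mem_filter, mem_univ, true_and, mem_offDiag, mem_erase]
      constructor
      · rintro ⟨_, a, b⟩; exact ⟨fun h => b h.symm, a⟩
      · rintro ⟨a, b⟩; exact ⟨hx, b, fun h => a h.symm⟩
    rw [h8, card_erase_of_mem hx, card_of_mem (hP hA)]
    exact ⟨1, rfl⟩
  · have h8 : univ.filter (fun y : Fin 7 => (x, y) ∈ A.offDiag) = ∅ := by
      ext y
      simp [hx]
    rw [h8]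
    exact ⟨0, rfl⟩

/-! ## The two levels -/

/-- the two families of triples which belong to a flat maximal antichain -/
lemma families {𝒜 : Finset (Finset (Fin 7))} (h : ∀ A ∈ 𝒜, A.card = 3 ∨ A.card = 3 + 1)
    (hm : IsMaxAntichain 7 𝒜) : ∃ P Q : Finset (Finset (Fin 7)), P ⊆ Tr ∧ Q ⊆ Tr ∧
      P.card + Q.card = 𝒜.card ∧ (∀ A ∈ P, ∀ G ∈ Q, ¬ Disjoint A G) ∧
      (∀ G ∈ Tr, G ∉ Q → ∃ A ∈ P, Disjoint A G) ∧
      (∀ A ∈ Tr, A ∉ P → ∃ G ∈ Q, Disjoint G A) := by
  obtain ⟨ha, hb⟩ := hm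
  refine ⟨𝒜.filter (fun A => A.card = 3), (𝒜.filter (fun A => ¬ A.card = 3)).image compl,
    ?_, ?_, ?_, ?_, ?_, ?_⟩
  · intro A hA
    rw [mem_filter] at hA
    exact mem_powersetCard.2 ⟨subset_univ _, hA.2⟩
  · intro G hG
    rw [mem_image] at hG
    obtain ⟨A, hA, rfl⟩ := hG
    rw [mem_filter] at hA
    refine mem_powersetCard.2 ⟨subset_univ _, ?_⟩
    have h1 : A.card = 4 := by
      rcases h A hA.1 with h2 | h2
      · exact absurd h2 hA.2
      · exact h2
    rw [card_compl, h1]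
    rfl
  · rw [card_image_of_injective _ compl_injective]
    exact card_filter_add_card_filter_not _
  · intro A hA G hG hd
    rw [mem_filter] at hA
    rw [mem_image] at hG
    obtain ⟨B, hB, rfl⟩ := hG
    rw [mem_filter] at hB
    have h1 : A ⊆ B := by
      rw [← compl_compl B]
      exact subset_compl_iff_disjoint_right.2 hd
    exact ha A hA.1 B hB.1 (Finset.ssubset_iff_subset_ne.2 ⟨h1, fun e => hB.2 (e ▸ hA.2)⟩)
  · intro G hG hGQ
    have hc : Gᶜ.card = 4 := by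
      rw [card_compl, card_of_mem hG]
      rfl
    have h1 : Gᶜ ∉ 𝒜 := by
      intro h2
      apply hGQ
      rw [mem_image]
      exact ⟨Gᶜ, mem_filter.2 ⟨h2, by omega⟩, compl_compl G⟩
    obtain ⟨A, hA, h3 | h3⟩ := hb _ h1
    · have h4 := card_lt_card h3
      refine ⟨A, mem_filter.2 ⟨hA, ?_⟩, ?_⟩
      · rcases h A hA with h5 | h5 <;> omega
      · exact subset_compl_iff_disjoint_right.1 h3.1
    · have h4 := card_lt_card h3
      rcases h A hA with h5 | h5 <;> omega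
  · intro A hA hAP
    have hc := card_of_mem hA
    have h1 : A ∉ 𝒜 := fun h2 => hAP (mem_filter.2 ⟨h2, hc⟩)
    obtain ⟨B, hB, h3 | h3⟩ := hb _ h1
    · have h4 := card_lt_card h3
      rcases h B hB with h5 | h5 <;> omega
    · have h4 := card_lt_card h3
      refine ⟨Bᶜ, mem_image.2 ⟨B, mem_filter.2 ⟨hB, by omega⟩, rfl⟩, ?_⟩
      exact (subset_compl_iff_disjoint_left.1 (by rw [compl_compl]; exact h3.1))

lemma lower {m : ℕ} (hm : m ∈ S 7 3) : 14 ≤ m := by
  obtain ⟨𝒜, h, hmax, rfl⟩ := hm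
  obtain ⟨P, Q, hP, hQ, hc, h1, h2, h3⟩ := families h hmax
  have e1 := (ineq hP hQ h1 h2).1
  have e2 := (ineq hQ hP (fun G hG A hA hd => h1 A hA G hG hd.symm) h3).1
  omega

lemma fifteen : 15 ∉ S 7 3 := by
  rintro ⟨𝒜, h, hmax, hcard⟩
  obtain ⟨P, Q, hP, hQ, hc, h1, h2, h3⟩ := families h hmax
  have e1 := (ineq hP hQ h1 h2).1
  have h1' : ∀ G ∈ Q, ∀ A ∈ P, ¬ Disjoint G A := fun G hG A hA hd => h1 A hA G hG hd.symm
  have e2 := (ineq hQ hP h1' h3).1
  obtain h5 | h5 : P.card = 7 ∨ P.card = 8 := by omega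
  · exact seven hP hQ h1 h2 h5 (by omega)
  · exact seven hQ hP h1' h3 (by omega) h5

/-- the lines of the Fano plane and their complements -/
def fano : Finset (Finset (Fin 7)) :=
  {{0, 1, 3}, {1, 2, 4}, {2, 3, 5}, {3, 4, 6}, {0, 4, 5}, {1, 5, 6}, {0, 2, 6},
    {2, 4, 5, 6}, {0, 3, 5, 6}, {0, 1, 4, 6}, {0, 1, 2, 5}, {1, 2, 3, 6}, {0, 2, 3, 4},
    {1, 3, 4, 5}}

set_option maxRecDepth 100000 in
lemma fourteen : 14 ∈ S 7 3 := by
  refine ⟨fano, ?_, ⟨?_, ?_⟩, ?_⟩
  · decide +kernel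
  · decide +kernel
  · decide +kernel
  · decide +kernel

lemma T_seven : T 7 3 = 29 := by
  unfold T
  have h1 : ⌈(((7 : ℕ) : ℚ) - ((3 : ℕ) : ℚ)) / 2⌉ = 2 := by
    rw [Int.ceil_eq_iff]
    norm_num
  rw [h1]
  have h2 : Nat.choose 7 (3 + 1) = 35 := by decide
  rw [h2]
  norm_num

/-- For `n = 7`, `l = 3`: the least member of `S(7,3)` is `14`, `T(7,3) = 29`, and `15` does not
belong to `S(7,3)`. So it is not true that for all `3 ≤ l ≤ ⌈n/2⌉` every integer from `min S(n,l)`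
to `T(n,l)` belongs to `S(n,l)`. -/
theorem result :
    IsLeast (S 7 3) 14 ∧ 15 ∉ S 7 3 ∧ T 7 3 = 29 ∧
    ¬ ∀ n l : ℕ, 3 ≤ l → (l : ℤ) ≤ ⌈(n : ℚ) / 2⌉ →
      ∀ m : ℕ, sInf (S n l) ≤ m → (m : ℤ) ≤ T n l → m ∈ S n l := by
  refine ⟨⟨fourteen, fun m hm => lower hm⟩, fifteen, T_seven, fun hall => ?_⟩
  refine fifteen (hall 7 3 le_rfl ?_ 15 ?_ ?_)
  · have h1 : ⌈((7 : ℕ) : ℚ) / 2⌉ = 4 := by
      rw [Int.ceil_eq_iff]
      norm_num
    rw [h1]
    norm_num
  · exact le_trans (Nat.sInf_le fourteen) (by norm_num)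
  · rw [T_seven]
    norm_num

end Pool.Agent.Results.MP_6c6cee_co.GapAboveMinimum
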